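import Pool.Agent.Helper14.TH7.StD
import Pool.Agent.Helper93.TLH.GenN

/-!
# Project TH (levels `2·7^n`): the rows of the Hecke operators `T_23`, `T_29`, `T_37`
-/

set_option autoImplicit false
set_option maxRecDepth 1000000

namespace Pool.Agent.Helper92.TH7

open Pool.Agent.Helper14.CV (Homog EqC act Tl StFar StFex)
open Pool.Agent.Helper28.WK (Tw evw)
open Pool.Agent.Helper4.S7 (Tm mulL sclL Gd pj S7Pj)
open Pool.Agent.Helper76.TH7 (PlH rYH edgeH HPlA7 HEdg7 ddH7)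
open Pool.Agent.Helper84.S7
open Pool.Agent.Helper93.TLH (HTy SymH SHHk SHHkS LBH ChkN row_of_chkN B4)
open Pool.Agent.Helper93.TLE (DDE T5)
open Pool.Agent.Helper14.TH7

private theorem opL_apply7 (L : List Tm) {q q' : ℕ} (F : Fn7 q q') (x : ZMod q) (y : ZMod q') :
    opL L F x y = (L.map fun t => t.1 • tr7 t.2.1 t.2.2.1 t.2.2.2.1 t.2.2.2.2 F x y).sum := by
  induction L with
  | nil => simp [opL]
  | cons t L ih =>
    have e : opL (t :: L) F x y = (((t.1 : ℤ) : ZMod 7) • op7 t.2.1 t.2.2.1 t.2.2.2.1 t.2.2.2.2) F x y +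
        opL L F x y := by
      simp [opL]
    rw [e, ih, List.map_cons, List.sum_cons, zsmul_eq_mul]
    rfl

/-- The list of the terms with their basic paths `0 → ∞`, `0 → 1/2`, `0 → 1/4`. -/
def TT3 (L0 L1 L2 : List Tm) : List (B4 × T5) :=
  (L0.map fun t => ((1, 0, 0, 1), t)) ++ (L1.map fun t => ((1, 2, 0, 1), t)) ++
    (L2.map fun t => ((1, 4, 0, 1), t))

private theorem row7 (hf : THkF) (ht : TTre) (hm : S7Trm) (l : ℕ) (hl : l.Prime) (hl7 : l ≠ 7) (hl2 : l ≠ 2)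
    (J : List ℤ) (hJn : J.Nodup) (hJl : J.length = l)
    (hJd : ∀ j ∈ J, ∀ j' ∈ J, (l : ℤ) ∣ j - j' → j = j')
    (u1 u2 v1 v2 : ℤ) (hu : u1 ≠ 0 ∨ u2 ≠ 0) (hv : v1 ≠ 0 ∨ v2 ≠ 0) (L0 L1 L2 : List Tm)
    (hc : ChkN 1 7 l J u1 u2 v1 v2 (TT3 L0 L1 L2))
    (r s : ℕ) (G : ℤ → ℤ → ZMod 7) (hG : SymH 7 r (s + 1) G) :
    (edgeH 0 u1 u2 v1 v2 (Tl l (7 ^ r) G) : Fn7 (7 ^ r) (7 ^ s)) =
      opL L0 (pfH G 0) + opL L1 (pfH G 1) + opL L2 (pfH G 2) := by
  funext x y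
  have hl0 : (l : ℤ) ≠ 0 := by exact_mod_cast hl.ne_zero
  have hpl : ¬ (7 : ℤ) ∣ (l : ℤ) := by
    intro h
    have h' : (7 : ℕ) ∣ l := by exact_mod_cast h
    exact hl7 (((Nat.prime_dvd_prime_iff_eq (by norm_num) hl).1 h').symm)
  have hF := hf (ZMod 7) inferInstance r s l G J.toFinset hl hl7 hl2 hG
    (by rw [List.toFinset_card_of_nodup hJn, hJl])
    (fun j hj j' hj' => hJd j (List.mem_toFinset.1 hj) j' (List.mem_toFinset.1 hj'))
    u1 u2 v1 v2 hu hv x y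
  rw [List.sum_toFinset _ hJn] at hF
  have key := row_of_chkN (R := ZMod 7) (X := ZMod (7 ^ r) × ZMod (7 ^ s)) 7 1 7 l hl0 (by norm_num) hpl
    (by norm_num) (by norm_num) J
    (fun a b c d F z => tr7 a b c d (fun x y => F (x, y)) z.1 z.2)
    (fun a b c d => ⟨fun z => (((b : ZMod (7 ^ r)) + d * z.1) * ((a : ZMod (7 ^ r)) + 7 * c * z.1)⁻¹,
      ((c : ZMod (7 ^ s)) + a * z.2) * ((d : ZMod (7 ^ s)) + 7 * b * z.2)⁻¹), fun F z => rfl⟩)
    (fun F a b c d a' b' c' d' ha hd ha' hd' => by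
      funext z
      have h := (hm (ZMod 7) r s (fun x y => F (x, y))).1 a b c d a' b' c' d' ha hd ha' hd'
      rw [one_mul]
      exact congrFun (congrFun h z.1) z.2)
    (fun u1 u2 v1 v2 z => edgeH 0 u1 u2 v1 v2 G z.1 z.2) G hG.1
    (fun z => ⟨1, 1, (z.1.val : ℤ), 7 * rYH 0 z.1 z.2,
      1 + 7 * (z.1.val : ℤ) * rYH 0 z.1 z.2, by
        have : (1 : ℤ) * (1 + 7 * (z.1.val : ℤ) * rYH 0 z.1 z.2) -
          (z.1.val : ℤ) * (7 * rYH 0 z.1 z.2) = 1 := by ring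
        rw [this]; exact one_ne_zero,
      fun u1 u2 v1 v2 => by
        unfold edgeH
        simp only [one_mul, one_smul, pow_zero, zero_add, pow_one]⟩)
    (fun a b c d u1 u2 v1 v2 hd hu hv z => by
      have hd' : HTy a b (7 * c) d := by rwa [one_mul] at hd
      have h := ht (ZMod 7) inferInstance r s G hG a b c d u1 u2 v1 v2 hd' hu hv z.1 z.2
      rw [one_mul]
      exact h)
    u1 u2 v1 v2 (TT3 L0 L1 L2) hc
    (edgeH 0 u1 u2 v1 v2 (Tl l (7 ^ r) G) x y) (x, y) (by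
      rw [hF]
      simp only [one_mul])
  rw [key]
  show _ = opL L0 (pfH G 0) x y + opL L1 (pfH G 1) x y + opL L2 (pfH G 2) x y
  rw [opL_apply7, opL_apply7, opL_apply7]
  unfold TT3
  simp only [List.map_append, List.sum_append, List.map_map]
  rfl

/-- The residues `-(n), ..., n`. -/
def JJ (n : ℕ) : List ℤ := (List.range (2 * n + 1)).map fun k => (k : ℤ) - n

private theorem c23_0 : ChkN 1 7 23 (JJ 11) 1 0 0 1 (TT3 (T23H 0 0) (T23H 0 1) (T23H 0 2)) := by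
  decide +kernel

private theorem c23_1 : ChkN 1 7 23 (JJ 11) 1 2 0 1 (TT3 (T23H 1 0) (T23H 1 1) (T23H 1 2)) := by
  decide +kernel

private theorem c23_2 : ChkN 1 7 23 (JJ 11) 1 4 0 1 (TT3 (T23H 2 0) (T23H 2 1) (T23H 2 2)) := by
  decide +kernel

/-- HK23. -/
theorem hHk23 (hf : THkF) (ht : TTre) (hm : S7Trm) : THk 23 T23H := by
  intro r s G hG i
  rw [Fin.sum_univ_three]
  fin_cases i
  · exact row7 hf ht hm 23 (by norm_num) (by norm_num) (by norm_num) (JJ 11) (by decide +kernel) rfl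
      (by decide +kernel) 1 0 0 1 (Or.inl one_ne_zero) (Or.inr one_ne_zero) _ _ _ c23_0 r s G hG
  · exact row7 hf ht hm 23 (by norm_num) (by norm_num) (by norm_num) (JJ 11) (by decide +kernel) rfl
      (by decide +kernel) 1 2 0 1 (Or.inl one_ne_zero) (Or.inr one_ne_zero) _ _ _ c23_1 r s G hG
  · exact row7 hf ht hm 23 (by norm_num) (by norm_num) (by norm_num) (JJ 11) (by decide +kernel) rfl
      (by decide +kernel) 1 4 0 1 (Or.inl one_ne_zero) (Or.inr one_ne_zero) _ _ _ c23_2 r s G hG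

private theorem c29_0 : ChkN 1 7 29 (JJ 14) 1 0 0 1 (TT3 (T29H 0 0) (T29H 0 1) (T29H 0 2)) := by
  decide +kernel

private theorem c29_1 : ChkN 1 7 29 (JJ 14) 1 2 0 1 (TT3 (T29H 1 0) (T29H 1 1) (T29H 1 2)) := by
  decide +kernel

private theorem c29_2 : ChkN 1 7 29 (JJ 14) 1 4 0 1 (TT3 (T29H 2 0) (T29H 2 1) (T29H 2 2)) := by
  decide +kernel

/-- HK29. -/
theorem hHk29 (hf : THkF) (ht : TTre) (hm : S7Trm) : THk 29 T29H := by
  intro r s G hG i
  rw [Fin.sum_univ_three]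
  fin_cases i
  · exact row7 hf ht hm 29 (by norm_num) (by norm_num) (by norm_num) (JJ 14) (by decide +kernel) rfl
      (by decide +kernel) 1 0 0 1 (Or.inl one_ne_zero) (Or.inr one_ne_zero) _ _ _ c29_0 r s G hG
  · exact row7 hf ht hm 29 (by norm_num) (by norm_num) (by norm_num) (JJ 14) (by decide +kernel) rfl
      (by decide +kernel) 1 2 0 1 (Or.inl one_ne_zero) (Or.inr one_ne_zero) _ _ _ c29_1 r s G hG
  · exact row7 hf ht hm 29 (by norm_num) (by norm_num) (by norm_num) (JJ 14) (by decide +kernel) rfl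
      (by decide +kernel) 1 4 0 1 (Or.inl one_ne_zero) (Or.inr one_ne_zero) _ _ _ c29_2 r s G hG

private theorem c37_0 : ChkN 1 7 37 (JJ 18) 1 0 0 1 (TT3 (T37H 0 0) (T37H 0 1) (T37H 0 2)) := by
  decide +kernel

private theorem c37_1 : ChkN 1 7 37 (JJ 18) 1 2 0 1 (TT3 (T37H 1 0) (T37H 1 1) (T37H 1 2)) := by
  decide +kernel

private theorem c37_2 : ChkN 1 7 37 (JJ 18) 1 4 0 1 (TT3 (T37H 2 0) (T37H 2 1) (T37H 2 2)) := by
  decide +kernel

/-- HK37. -/
theorem hHk37 (hf : THkF) (ht : TTre) (hm : S7Trm) : THk 37 T37H := by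
  intro r s G hG i
  rw [Fin.sum_univ_three]
  fin_cases i
  · exact row7 hf ht hm 37 (by norm_num) (by norm_num) (by norm_num) (JJ 18) (by decide +kernel) rfl
      (by decide +kernel) 1 0 0 1 (Or.inl one_ne_zero) (Or.inr one_ne_zero) _ _ _ c37_0 r s G hG
  · exact row7 hf ht hm 37 (by norm_num) (by norm_num) (by norm_num) (JJ 18) (by decide +kernel) rfl
      (by decide +kernel) 1 2 0 1 (Or.inl one_ne_zero) (Or.inr one_ne_zero) _ _ _ c37_1 r s G hG
  · exact row7 hf ht hm 37 (by norm_num) (by norm_num) (by norm_num) (JJ 18) (by decide +kernel) rfl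
      (by decide +kernel) 1 4 0 1 (Or.inl one_ne_zero) (Or.inr one_ne_zero) _ _ _ c37_2 r s G hG

end Pool.Agent.Helper92.TH7
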